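import Pool.Agent.Helper376.LC.Cox

/-!
# Graphs with labelled edges and right-angled Coxeter groups
-/

set_option autoImplicit false

namespace Pool.Agent.L7h78.SP

open Pool.Agent.Helper376.LC (RightAngled descents_commute simple_mem_Ninv' mem_Ninv_simple_mul')

variable {V S : Type}

/-- Homotopies of walks in the graph `X` whose edges `x y` are labelled by `lab x y`: the walks can
be changed by backtracking along an edge and across squares `x y w z` whose opposite edges have the
same label, the two labels being joined by an edge of `Γ`. -/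
inductive Homot (X : SimpleGraph V) (Γ : SimpleGraph S) (lab : V → V → S) :
    ∀ {x y : V}, X.Walk x y → X.Walk x y → Prop
  | refl {x y : V} (p : X.Walk x y) : Homot X Γ lab p p
  | symm {x y : V} {p q : X.Walk x y} : Homot X Γ lab p q → Homot X Γ lab q p
  | trans {x y : V} {p q r : X.Walk x y} : Homot X Γ lab p q → Homot X Γ lab q r →
      Homot X Γ lab p r
  | back {x y z : V} (h : X.Adj x y) (p : X.Walk x z) :
      Homot X Γ lab (.cons h (.cons h.symm p)) p
  | square {x y z w v : V} (hy : X.Adj x y) (hyw : X.Adj y w) (hz : X.Adj x z) (hzw : X.Adj z w)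
      (h₁ : lab x y = lab z w) (h₂ : lab x z = lab y w) (h₃ : Γ.Adj (lab x y) (lab x z))
      (p : X.Walk w v) : Homot X Γ lab (.cons hy (.cons hyw p)) (.cons hz (.cons hzw p))
  | cons {x y z : V} (h : X.Adj x y) {p q : X.Walk y z} : Homot X Γ lab p q →
      Homot X Γ lab (.cons h p) (.cons h q)

/-- A simply connected square complex with special hyperplanes. The edge between `x` and `y` is
labelled by `lab x y` (the class of its hyperplane), and two labels are adjacent in `Γ` if their
hyperplanes cross somewhere: edges with a common vertex and the same label are equal; edges with a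
common vertex and adjacent labels span a square; and any two walks with the same end points are
homotopic. -/
structure Special (X : SimpleGraph V) (Γ : SimpleGraph S) (lab : V → V → S) : Prop where
  conn : X.Connected
  symm : ∀ x y, X.Adj x y → lab x y = lab y x
  inj : ∀ x y z, X.Adj x y → X.Adj x z → lab x y = lab x z → y = z
  square : ∀ x y z, X.Adj x y → X.Adj x z → Γ.Adj (lab x y) (lab x z) →
    ∃ w, X.Adj y w ∧ X.Adj z w ∧ lab y w = lab x z ∧ lab z w = lab x y
  sc : ∀ (x y : V) (p q : X.Walk x y), Homot X Γ lab p q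

/-- the right-angled Coxeter matrix of a graph -/
noncomputable def racm (Γ : SimpleGraph S) : CoxeterMatrix S := by
  classical
  exact {
    M := Matrix.of fun s t => if s = t then 1 else if Γ.Adj s t then 2 else 0
    isSymm := by
      ext s t
      simp only [Matrix.transpose_apply, Matrix.of_apply, eq_comm (a := s) (b := t),
        SimpleGraph.adj_comm Γ s t]
    diagonal := by intro s; simp
    off_diagonal := by
      intro s t h
      simp only [Matrix.of_apply, h, if_false]
      split_ifs <;> omega }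

theorem racm_self (Γ : SimpleGraph S) (s : S) : racm Γ s s = 1 := (racm Γ).diagonal s

theorem racm_adj {Γ : SimpleGraph S} {s t : S} (h : Γ.Adj s t) : racm Γ s t = 2 := by
  classical
  show (if s = t then 1 else if Γ.Adj s t then 2 else 0) = 2
  rw [if_neg h.ne, if_pos h]

theorem racm_not {Γ : SimpleGraph S} {s t : S} (hst : s ≠ t) (h : ¬ Γ.Adj s t) :
    racm Γ s t = 0 := by
  classical
  show (if s = t then 1 else if Γ.Adj s t then 2 else 0) = 0
  rw [if_neg hst, if_neg h]

theorem adj_of_racm {Γ : SimpleGraph S} {s t : S} (h : racm Γ s t = 2) : Γ.Adj s t := by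
  by_contra h1
  by_cases hst : s = t
  · subst hst
    rw [racm_self] at h
    omega
  · rw [racm_not hst h1] at h
    omega

theorem racm_rightAngled (Γ : SimpleGraph S) : RightAngled (racm Γ) := by
  intro s t hst
  by_cases h : Γ.Adj s t
  · exact Or.inl (racm_adj h)
  · exact Or.inr (racm_not hst h)

/-- its Coxeter system -/
noncomputable abbrev rcs (Γ : SimpleGraph S) : CoxeterSystem (racm Γ) (racm Γ).Group :=
  (racm Γ).toCoxeterSystem

/-- the product of the labels of a walk -/
noncomputable def wl {X : SimpleGraph V} (Γ : SimpleGraph S) (lab : V → V → S) :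
    ∀ {x y : V}, X.Walk x y → (racm Γ).Group
  | _, _, .nil => 1
  | x, _, @SimpleGraph.Walk.cons _ _ _ y _ _ p => (rcs Γ).simple (lab x y) * wl Γ lab p

variable {X : SimpleGraph V} {Γ : SimpleGraph S} {lab : V → V → S}

@[simp] theorem wl_nil (x : V) : wl Γ lab (.nil : X.Walk x x) = 1 := rfl

@[simp] theorem wl_cons {x y z : V} (h : X.Adj x y) (p : X.Walk y z) :
    wl Γ lab (.cons h p) = (rcs Γ).simple (lab x y) * wl Γ lab p := rfl

theorem wl_append {x y z : V} (p : X.Walk x y) (q : X.Walk y z) :
    wl Γ lab (p.append q) = wl Γ lab p * wl Γ lab q := by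
  induction p with
  | nil => simp
  | cons h p ih => simp [ih, mul_assoc]

theorem simple_comm' {s t : S} (h : Γ.Adj s t) :
    (rcs Γ).simple s * (rcs Γ).simple t = (rcs Γ).simple t * (rcs Γ).simple s := by
  have h1 := (rcs Γ).simple_mul_simple_pow s t
  rw [racm_adj h, pow_two] at h1
  have h2 : ((rcs Γ).simple s * (rcs Γ).simple t) =
      ((rcs Γ).simple s * (rcs Γ).simple t)⁻¹ := eq_inv_of_mul_eq_one_left h1
  rw [mul_inv_rev, (rcs Γ).inv_simple, (rcs Γ).inv_simple] at h2
  exact h2

theorem simple_ne {s t : S} (h : s ≠ t) : (rcs Γ).simple s ≠ (rcs Γ).simple t := by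
  classical
  intro h1
  have hl : (racm Γ).IsLiftable
      (fun u => if u = s then (Multiplicative.ofAdd (1 : ZMod 2)) else 1) := by
    intro a b
    by_cases hab : a = b
    · subst hab
      rw [racm_self, pow_one]
      beta_reduce
      split_ifs <;> decide
    · by_cases hab' : Γ.Adj a b
      · rw [racm_adj hab']
        beta_reduce
        split_ifs <;> decide
      · rw [racm_not hab hab', pow_zero]
  have h2 := congrArg ((rcs Γ).lift ⟨_, hl⟩) h1
  rw [(rcs Γ).lift_apply_simple hl, (rcs Γ).lift_apply_simple hl] at h2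
  simp only [if_true, if_neg h.symm] at h2
  exact absurd h2 (by decide)

theorem Special.homot (hX : Special X Γ lab) {x y : V} {p q : X.Walk x y}
    (h : Homot X Γ lab p q) : wl Γ lab p = wl Γ lab q := by
  induction h with
  | refl p => rfl
  | symm _ ih => exact ih.symm
  | trans _ _ h1 h2 => exact h1.trans h2
  | @back x y z h p =>
    rw [wl_cons, wl_cons, ← hX.symm x y h, (rcs Γ).simple_mul_simple_cancel_left]
  | square hy hyw hz hzw h₁ h₂ h₃ p =>
    rw [wl_cons, wl_cons, wl_cons, wl_cons, ← h₁, ← h₂, ← mul_assoc, ← mul_assoc,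
      simple_comm' h₃]
  | cons h _ ih => rw [wl_cons, wl_cons, ih]

/-- the element of the Coxeter group of a pair of vertices -/
noncomputable def LL (hX : Special X Γ lab) (x y : V) : (racm Γ).Group :=
  wl Γ lab (hX.conn.preconnected x y).some

theorem LL_eq (hX : Special X Γ lab) {x y : V} (p : X.Walk x y) : LL hX x y = wl Γ lab p :=
  hX.homot (hX.sc x y _ p)

theorem LL_trans (hX : Special X Γ lab) (x y z : V) : LL hX x z = LL hX x y * LL hX y z := by
  obtain ⟨p⟩ := hX.conn.preconnected x y
  obtain ⟨q⟩ := hX.conn.preconnected y z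
  rw [LL_eq hX p, LL_eq hX q, LL_eq hX (p.append q), wl_append]

theorem LL_adj (hX : Special X Γ lab) {x y : V} (h : X.Adj x y) :
    LL hX x y = (rcs Γ).simple (lab x y) := by
  rw [LL_eq hX (.cons h .nil), wl_cons, wl_nil, mul_one]

theorem LL_self (hX : Special X Γ lab) (x : V) : LL hX x x = 1 := LL_eq hX .nil

/-- a first step of a shortest walk -/
theorem first_step (hX : Special X Γ lab) {x y : V} {n : ℕ} (h : X.dist x y = n + 1) :
    ∃ z, X.Adj x z ∧ X.dist z y = n := by
  obtain ⟨p, hp⟩ := hX.conn.exists_walk_length_eq_dist x y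
  cases p with
  | nil => rw [h] at hp; simp at hp
  | @cons _ z _ hz p =>
    refine ⟨z, hz, ?_⟩
    rw [SimpleGraph.Walk.length_cons, h] at hp
    have h1 := SimpleGraph.dist_le p
    have h2 := hX.conn.dist_triangle (u := x) (v := z) (w := y)
    rw [SimpleGraph.dist_eq_one_iff_adj.2 hz, h] at h2
    omega

theorem key (hX : Special X Γ lab) (n : ℕ) : ∀ x y : V, X.dist x y = n →
    (rcs Γ).length (LL hX x y) = n ∧ ∀ s : S, (rcs Γ).IsLeftDescent (LL hX x y) s →
      ∃ z, X.Adj x z ∧ lab x z = s ∧ X.dist z y + 1 = n := by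
  induction n with
  | zero =>
    intro x y h
    rw [hX.conn.dist_eq_zero_iff] at h
    subst h
    rw [LL_self, CoxeterSystem.length_one]
    refine ⟨rfl, fun s hs => ?_⟩
    unfold CoxeterSystem.IsLeftDescent at hs
    rw [CoxeterSystem.length_one] at hs
    omega
  | succ n ih =>
    intro x y h
    obtain ⟨x₁, hx₁, hd⟩ := first_step hX h
    obtain ⟨h1, h2⟩ := ih x₁ y hd
    obtain ⟨s₁, hs₁⟩ : ∃ s₁, lab x x₁ = s₁ := ⟨_, rfl⟩
    have h3 : LL hX x y = (rcs Γ).simple s₁ * LL hX x₁ y := by
      rw [LL_trans hX x x₁ y, LL_adj hX hx₁, hs₁]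
    have h4 : LL hX x₁ y = (rcs Γ).simple s₁ * LL hX x y := by
      rw [h3, (rcs Γ).simple_mul_simple_cancel_left]
    have hlen : (rcs Γ).length (LL hX x y) = n + 1 := by
      rcases (rcs Γ).length_simple_mul (LL hX x₁ y) s₁ with h5 | h5
      · rw [h3, h5, h1]
      · exfalso
        obtain ⟨z, hz, hz1, hz2⟩ := h2 s₁ (by
          unfold CoxeterSystem.IsLeftDescent
          omega)
        have h6 : z = x := hX.inj x₁ z x hz hx₁.symm (by rw [hz1, ← hX.symm x x₁ hx₁, hs₁])
        rw [h6, h] at hz2
        omega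
    refine ⟨hlen, fun s hs => ?_⟩
    by_cases hss : s = s₁
    · exact ⟨x₁, hx₁, by rw [hs₁, hss], by omega⟩
    · have hd1 : (rcs Γ).IsLeftDescent (LL hX x y) s₁ := by
        unfold CoxeterSystem.IsLeftDescent
        rw [← h4, h1, hlen]
        omega
      have h5 : racm Γ s s₁ = 2 :=
        descents_commute (rcs Γ) (racm_rightAngled Γ) (LL hX x y) s s₁ hss hs hd1
      have h6 : Γ.Adj s s₁ := adj_of_racm h5
      have hd2 : (rcs Γ).IsLeftDescent (LL hX x₁ y) s := by
        rw [← simple_mem_Ninv', h4, mem_Ninv_simple_mul']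
        right
        refine ⟨simple_ne hss, ?_⟩
        · rw [← simple_comm' h6, mul_assoc, (rcs Γ).simple_mul_simple_self, mul_one]
          rw [simple_mem_Ninv']
          exact hs
      obtain ⟨z₁, hz₁, hz₁s, hz₁d⟩ := h2 s hd2
      obtain ⟨z, hxz, hz₁z, hl1, hl2⟩ := hX.square x₁ x z₁ hx₁.symm hz₁ (by
        rw [← hX.symm x x₁ hx₁, hs₁, hz₁s]
        exact h6.symm)
      refine ⟨z, hxz, by rw [hl1, hz₁s], ?_⟩
      have h7 := hX.conn.dist_triangle (u := z) (v := z₁) (w := y)
      rw [SimpleGraph.dist_eq_one_iff_adj.2 hz₁z.symm] at h7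
      have h8 := hX.conn.dist_triangle (u := x) (v := z) (w := y)
      rw [SimpleGraph.dist_eq_one_iff_adj.2 hxz, h] at h8
      omega

theorem eq_of_LL (hX : Special X Γ lab) {x y : V} (h : LL hX x y = 1) : x = y := by
  have h1 := (key hX _ x y rfl).1
  rw [h, CoxeterSystem.length_one] at h1
  exact (hX.conn.dist_eq_zero_iff).1 h1.symm

end Pool.Agent.L7h78.SP
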