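import Pool.Agent.L7h78.SP.Lab
import Pool.Agent.N77.CX.Main

/-!
# Groups acting on special square complexes
-/

set_option autoImplicit false

namespace Pool.Agent.L7h78.SP

open Pool.Agent.Y110.FJ (ClosedE)
open Pool.Agent.N77.CX (cox_main)

section semidirect

variable {S Q : Type} [Group Q] {Γ : SimpleGraph S}

/-- the automorphism of the right-angled Coxeter group given by an automorphism of the graph -/
noncomputable def gaut (Γ : SimpleGraph S) (τ : Equiv.Perm S)
    (hτ : ∀ s t, Γ.Adj (τ s) (τ t) ↔ Γ.Adj s t) : MulAut (racm Γ).Group :=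
  Pool.Agent.N77.CX.taut τ (fun s t => by
    by_cases hst : s = t
    · subst hst
      rw [racm_self, racm_self]
    · by_cases h : Γ.Adj s t
      · rw [racm_adj h, racm_adj ((hτ s t).2 h)]
      · rw [racm_not hst h, racm_not (fun h1 => hst (τ.injective h1)) (fun h1 => h ((hτ s t).1 h1))])

theorem gaut_simple (τ : Equiv.Perm S) (hτ : ∀ s t, Γ.Adj (τ s) (τ t) ↔ Γ.Adj s t) (s : S) :
    gaut Γ τ hτ ((rcs Γ).simple s) = (rcs Γ).simple (τ s) :=
  Pool.Agent.N77.CX.taut_simple τ _ s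

theorem racm_inv (τ : Equiv.Perm S) (hτ : ∀ s t, Γ.Adj (τ s) (τ t) ↔ Γ.Adj s t) (s t : S) :
    racm Γ (τ s) (τ t) = racm Γ s t := by
  by_cases hst : s = t
  · subst hst
    rw [racm_self, racm_self]
  · by_cases h : Γ.Adj s t
    · rw [racm_adj h, racm_adj ((hτ s t).2 h)]
    · rw [racm_not hst h, racm_not (fun h1 => hst (τ.injective h1)) (fun h1 => h ((hτ s t).1 h1))]

/-- semidirect products of right-angled Coxeter groups of any rank -/
theorem semi {C : ∀ (G : Type) [Group G], Prop} (hC : ClosedE C)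
    (hcox : ∀ (S : Type) (_ : Finite S) (A : CoxeterMatrix S), C A.Group)
    (φ : Q →* MulAut (racm Γ).Group) (σ : Q →* Equiv.Perm S)
    (hσ : ∀ q s t, Γ.Adj (σ q s) (σ q t) ↔ Γ.Adj s t)
    (hφ : ∀ q s, φ q ((rcs Γ).simple s) = (rcs Γ).simple (σ q s)) (hQ : C Q) :
    C ((racm Γ).Group ⋊[φ] Q) := by
  obtain ⟨N, hN⟩ : ∃ N : Subgroup ((racm Γ).Group ⋊[φ] Q),
    N = (SemidirectProduct.inl : (racm Γ).Group →* (racm Γ).Group ⋊[φ] Q).range := ⟨_, rfl⟩
  have hNk : N = (SemidirectProduct.rightHom : (racm Γ).Group ⋊[φ] Q →* Q).ker := by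
    rw [hN, SemidirectProduct.range_inl_eq_ker_rightHom]
  have hNn : N.Normal := by rw [hNk]; infer_instance
  let cs : CoxeterSystem (racm Γ) N := ⟨((MonoidHom.ofInjective
    (SemidirectProduct.inl_injective (φ := φ))).trans (MulEquiv.subgroupCongr hN.symm)).symm⟩
  have hcs : ∀ s, (cs.simple s : (racm Γ).Group ⋊[φ] Q) =
      SemidirectProduct.inl ((rcs Γ).simple s) := fun s => rfl
  obtain ⟨Q', hQ'⟩ : ∃ Q' : Subgroup ((racm Γ).Group ⋊[φ] Q),
    Q' = (SemidirectProduct.inr : Q →* (racm Γ).Group ⋊[φ] Q).range := ⟨_, rfl⟩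
  let act : MulAction Q' S := MulAction.compHom S
    (σ.comp ((SemidirectProduct.rightHom : (racm Γ).Group ⋊[φ] Q →* Q).comp Q'.subtype))
  have hact : ∀ (q : Q') (s : S), q • s =
      σ (SemidirectProduct.rightHom (q : (racm Γ).Group ⋊[φ] Q)) s := fun q s => rfl
  refine cox_main (N := N) cs hC hcox Q' ?_ ?_ ?_ ?_
  · rw [eq_top_iff]
    intro e _
    rw [← SemidirectProduct.inl_left_mul_inr_right e]
    refine mul_mem (Subgroup.mem_sup_left ?_) (Subgroup.mem_sup_right ?_)
    · rw [hN]; exact ⟨_, rfl⟩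
    · rw [hQ']; exact ⟨_, rfl⟩
  · intro q s t
    rw [hact, hact]
    exact racm_inv _ (hσ _) s t
  · intro q s
    rw [hcs, hcs, hact]
    obtain ⟨q, hq⟩ := q
    rw [hQ'] at hq
    obtain ⟨c, rfl⟩ := hq
    show SemidirectProduct.inr c * SemidirectProduct.inl ((rcs Γ).simple s) *
      (SemidirectProduct.inr c)⁻¹ = SemidirectProduct.inl ((rcs Γ).simple (σ c s))
    rw [← hφ, ← map_inv]
    exact (SemidirectProduct.inl_aut c _).symm
  · refine hC.base.of_injective _ Q (QuotientGroup.lift N SemidirectProduct.rightHom ?_) ?_ hQ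
    · intro x hx
      rw [hNk] at hx
      exact hx
    · rw [injective_iff_map_eq_one]
      intro x hx
      obtain ⟨x, rfl⟩ := QuotientGroup.mk'_surjective _ x
      rw [QuotientGroup.mk'_apply, QuotientGroup.lift_mk] at hx
      rw [QuotientGroup.mk'_apply, QuotientGroup.eq_one_iff, hNk]
      exact hx

end semidirect

section main

variable {G V S : Type} [Group G] [MulAction G V] [MulAction G S] {X : SimpleGraph V}
  {Γ : SimpleGraph S} {lab : V → V → S}

theorem adj_iff (hΓ : ∀ (g : G) (s t : S), Γ.Adj s t → Γ.Adj (g • s) (g • t)) (g : G) (s t : S) :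
    Γ.Adj (MulAction.toPerm g s) (MulAction.toPerm g t) ↔ Γ.Adj s t := by
  constructor
  · intro h
    have := hΓ g⁻¹ _ _ h
    simpa using this
  · exact hΓ g s t

/-- the action of `G` on the right-angled Coxeter group -/
noncomputable def psi (hΓ : ∀ (g : G) (s t : S), Γ.Adj s t → Γ.Adj (g • s) (g • t)) :
    G →* MulAut (racm Γ).Group where
  toFun g := gaut Γ (MulAction.toPerm g) (adj_iff hΓ g)
  map_one' := by
    apply MulEquiv.toMonoidHom_injective
    apply (rcs Γ).ext_simple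
    intro s
    show gaut Γ (MulAction.toPerm (1 : G)) (adj_iff hΓ 1) ((rcs Γ).simple s) = (rcs Γ).simple s
    rw [gaut_simple, MulAction.toPerm_apply, one_smul]
  map_mul' g h := by
    apply MulEquiv.toMonoidHom_injective
    apply (rcs Γ).ext_simple
    intro s
    show gaut Γ (MulAction.toPerm (g * h)) (adj_iff hΓ (g * h)) ((rcs Γ).simple s) =
      gaut Γ (MulAction.toPerm g) (adj_iff hΓ g)
        (gaut Γ (MulAction.toPerm h) (adj_iff hΓ h) ((rcs Γ).simple s))
    rw [gaut_simple, gaut_simple, gaut_simple, MulAction.toPerm_apply, MulAction.toPerm_apply,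
      MulAction.toPerm_apply, mul_smul]

theorem psi_simple (hΓ : ∀ (g : G) (s t : S), Γ.Adj s t → Γ.Adj (g • s) (g • t)) (g : G) (s : S) :
    psi hΓ g ((rcs Γ).simple s) = (rcs Γ).simple (g • s) :=
  gaut_simple (MulAction.toPerm g) (adj_iff hΓ g) s

theorem LL_smul (hX : Special X Γ lab)
    (hΓ : ∀ (g : G) (s t : S), Γ.Adj s t → Γ.Adj (g • s) (g • t))
    (hV : ∀ (g : G) (x y : V), X.Adj x y → X.Adj (g • x) (g • y))
    (hl : ∀ (g : G) (x y : V), X.Adj x y → lab (g • x) (g • y) = g • lab x y)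
    (g : G) (x y : V) : LL hX (g • x) (g • y) = psi hΓ g (LL hX x y) := by
  obtain ⟨p⟩ := hX.conn.preconnected x y
  rw [LL_eq hX p]
  induction p with
  | nil => rw [wl_nil, map_one, LL_self]
  | @cons u v w h p ih =>
    rw [wl_cons, map_mul, ← ih, psi_simple, ← hl g u v h, ← LL_adj hX (hV g u v h), ← LL_trans]

/-- **normal subgroups which act freely and specially on square complexes** -/
theorem special_main {C : ∀ (G : Type) [Group G], Prop} (hC : ClosedE C)
    (hcox : ∀ (S : Type) (_ : Finite S) (A : CoxeterMatrix S), C A.Group)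
    (hX : Special X Γ lab)
    (hV : ∀ (g : G) (x y : V), X.Adj x y → X.Adj (g • x) (g • y))
    (hΓ : ∀ (g : G) (s t : S), Γ.Adj s t → Γ.Adj (g • s) (g • t))
    (hl : ∀ (g : G) (x y : V), X.Adj x y → lab (g • x) (g • y) = g • lab x y)
    (N : Subgroup G) [N.Normal] (hQ : C (G ⧸ N))
    (hfree : ∀ n ∈ N, ∀ x : V, n • x = x → n = 1) (htriv : ∀ n ∈ N, ∀ s : S, n • s = s) :
    C G := by
  have h1 : ∀ n ∈ N, psi hΓ n = 1 := by
    intro n hn
    apply MulEquiv.toMonoidHom_injective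
    apply (rcs Γ).ext_simple
    intro s
    show psi hΓ n ((rcs Γ).simple s) = (rcs Γ).simple s
    rw [psi_simple, htriv n hn]
  have h2 : ∀ n ∈ N, MulAction.toPermHom G S n = 1 := by
    intro n hn
    ext s
    exact htriv n hn s
  obtain ⟨φ, hφ⟩ : ∃ φ : G ⧸ N →* MulAut (racm Γ).Group, φ = QuotientGroup.lift N (psi hΓ) h1 :=
    ⟨_, rfl⟩
  obtain ⟨σ, hσ⟩ : ∃ σ : G ⧸ N →* Equiv.Perm S,
    σ = QuotientGroup.lift N (MulAction.toPermHom G S) h2 := ⟨_, rfl⟩
  have hφm : ∀ g : G, φ (QuotientGroup.mk g) = psi hΓ g := by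
    intro g
    rw [hφ, QuotientGroup.lift_mk]
  have hσm : ∀ (g : G) (s : S), σ (QuotientGroup.mk g) s = g • s := by
    intro g s
    rw [hσ, QuotientGroup.lift_mk]
    rfl
  have hT : C ((racm Γ).Group ⋊[φ] (G ⧸ N)) := by
    refine semi hC hcox φ σ ?_ ?_ hQ
    · intro q s t
      obtain ⟨g, rfl⟩ := QuotientGroup.mk_surjective q
      rw [hσm, hσm]
      exact adj_iff hΓ g s t
    · intro q s
      obtain ⟨g, rfl⟩ := QuotientGroup.mk_surjective q
      rw [hσm, hφm, psi_simple]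
  obtain ⟨x₀⟩ := hX.conn.nonempty
  obtain ⟨F, hF⟩ : ∃ F : G →* (racm Γ).Group ⋊[φ] (G ⧸ N),
      ∀ g, F g = ⟨LL hX x₀ (g • x₀), QuotientGroup.mk g⟩ := by
    refine ⟨{ toFun := fun g => ⟨LL hX x₀ (g • x₀), QuotientGroup.mk g⟩, map_one' := ?_,
              map_mul' := ?_ }, fun g => rfl⟩
    · apply SemidirectProduct.ext
      · show LL hX x₀ ((1 : G) • x₀) = 1
        rw [one_smul, LL_self]
      · rfl
    · intro g h
      apply SemidirectProduct.ext
      · show LL hX x₀ ((g * h) • x₀) =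
          LL hX x₀ (g • x₀) * φ (QuotientGroup.mk g) (LL hX x₀ (h • x₀))
        rw [hφm, ← LL_smul hX hΓ hV hl, ← mul_smul, ← LL_trans]
      · rfl
  refine hC.base.of_injective G _ F ?_ hT
  rw [injective_iff_map_eq_one]
  intro g hg
  rw [hF] at hg
  have h3 : LL hX x₀ (g • x₀) = 1 := congrArg SemidirectProduct.left hg
  have h4 : (QuotientGroup.mk g : G ⧸ N) = 1 := congrArg SemidirectProduct.right hg
  rw [QuotientGroup.eq_one_iff] at h4
  exact hfree g h4 x₀ (eq_of_LL hX h3).symm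

end main

end Pool.Agent.L7h78.SP
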